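import Pool.Agent.Lib.MP_1c9ad1_nt.Quat13

/-!
# The first sign change of Gross lattice counts is at most `2 p + 1`

For non-conjugate maximal orders `O, O'` of the quaternion algebra over `ℚ` ramified exactly at
`p` and infinity, the number `n₀ (O, O')` of Chevyrev and Galbraith is at most `2 p + 1`.
-/

namespace Pool.Agent.Results.MP_1c9ad1_nt.FirstSignChange

open Quaternion

/-- The quaternion algebra `(a, b)` over the field `K` is a division algebra: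
each nonzero element is invertible. -/
def IsDivisionAlg (K : Type*) [Field K] (a b : K) : Prop :=
  ∀ x : ℍ[K,a,b], x ≠ 0 → IsUnit x

/-- The quaternion algebra `(a, b)` over `ℚ` is ramified exactly at the prime `p` and at
infinity: its base change to `ℝ` is a division algebra, and for each prime `l` its base change
to `ℚ_[l]` is a division algebra if and only if `l = p`. -/
def RamifiedExactlyAt (p : ℕ) (a b : ℚ) : Prop :=
  IsDivisionAlg ℝ (a : ℝ) (b : ℝ) ∧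
    ∀ (l : ℕ) [Fact l.Prime], IsDivisionAlg ℚ_[l] (a : ℚ_[l]) (b : ℚ_[l]) ↔ l = p

variable {a b : ℚ}

/-- Reduced trace `x + x̄`. -/
def trd (x : ℍ[ℚ,a,b]) : ℚ := (x + star x).re

/-- Reduced norm `x x̄`. -/
def nrd (x : ℍ[ℚ,a,b]) : ℚ := (x * star x).re

/-- An order: a subring that is a full `ℤ`-lattice (finitely generated over `ℤ`, and spanning
the algebra over `ℚ`). -/
def IsOrder (O : Subring ℍ[ℚ,a,b]) : Prop :=
  Module.Finite ℤ O ∧ Submodule.span ℚ (O : Set ℍ[ℚ,a,b]) = ⊤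

/-- A maximal order: an order that is not properly contained in another order. -/
def IsMaximalOrder (O : Subring ℍ[ℚ,a,b]) : Prop :=
  IsOrder O ∧ ∀ O' : Subring ℍ[ℚ,a,b], IsOrder O' → O ≤ O' → O' = O

/-- `O' = c⁻¹ O c` for some invertible `c`. -/
def Conjugate (O O' : Subring ℍ[ℚ,a,b]) : Prop :=
  ∃ c : (ℍ[ℚ,a,b])ˣ, ∀ x : ℍ[ℚ,a,b],
    x ∈ O' ↔ (c : ℍ[ℚ,a,b]) * x * ((c⁻¹ : (ℍ[ℚ,a,b])ˣ) : ℍ[ℚ,a,b]) ∈ O

/-- The Gross lattice `{2 x - Tr x : x ∈ O}`. -/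
def grossLattice (O : Subring ℍ[ℚ,a,b]) : Set ℍ[ℚ,a,b] :=
  {h | ∃ x ∈ O, h = 2 * x - ((trd x : ℚ) : ℍ[ℚ,a,b])}

/-- The number of primitive representations of `d` by the reduced norm on the Gross lattice:
the number of `h` in the lattice with `Nr h = d` that are not `m w` for an element `w` of the
lattice and an integer `m ≠ ± 1` (so the coordinates in a `ℤ`-basis have gcd one). -/
noncomputable def primReps (O : Subring ℍ[ℚ,a,b]) (d : ℕ) : ℕ :=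
  Set.ncard {h : ℍ[ℚ,a,b] | h ∈ grossLattice O ∧ nrd h = d ∧
    ∀ (m : ℤ) (w : ℍ[ℚ,a,b]), w ∈ grossLattice O → h = m • w → m = 1 ∨ m = -1}

/-- The natural numbers `n` such that there are positive `n₁, n₂ < n` with
`a_{O'}(n₁) ≥ a_{O}(n₁)` and `a_{O'}(n₂) < a_{O}(n₂)`. -/
def signSet (O O' : Subring ℍ[ℚ,a,b]) : Set ℕ :=
  {n | ∃ n₁ n₂ : ℕ, 0 < n₁ ∧ n₁ < n ∧ 0 < n₂ ∧ n₂ < n ∧
    primReps O n₁ ≤ primReps O' n₁ ∧ primReps O' n₂ < primReps O n₂}

open Pool.Agent.Lib.MP_1c9ad1_nt in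
theorem mem_grossLattice {O : Subring ℍ[ℚ,a,b]} (h : ℍ[ℚ,a,b]) :
    h ∈ grossLattice O ↔ h ∈ grossL O := by
  have key : ∀ x : ℍ[ℚ,a,b], 2 * x - ((trd x : ℚ) : ℍ[ℚ,a,b]) = x - star x := by
    intro x
    rw [two_mul]
    ext <;> simp [trd]
  constructor
  · rintro ⟨x, hx, rfl⟩
    exact ⟨x, hx, key x⟩
  · rintro ⟨x, hx, rfl⟩
    exact ⟨x, hx, (key x).symm⟩

open Pool.Agent.Lib.MP_1c9ad1_nt in
theorem primReps_eq (hab : a * b ≠ 0) {O : Subring ℍ[ℚ,a,b]} (hO : IsOrd O) (d : ℕ) :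
    primReps O d = cnt (qO O) d := by
  unfold primReps cnt
  rw [← Set.ncard_image_of_injective _ (Subtype.val_injective :
    Function.Injective (Subtype.val : grossL O → ℍ[ℚ,a,b]))]
  congr 1
  ext h
  constructor
  · rintro ⟨h1, h2, h3⟩
    rw [mem_grossLattice] at h1
    refine ⟨⟨h, h1⟩, ⟨?_, ?_⟩, rfl⟩
    · intro m w hw
      have e := congrArg Subtype.val hw
      rcases h3 m w ((mem_grossLattice _).mpr w.2) e with h4 | h4
      · rw [h4]; exact isUnit_one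
      · rw [h4]; exact isUnit_one.neg
    · have h4 := qO_cast hab hO ⟨h, h1⟩
      have h5 : nr h = d := h2
      rw [h5] at h4
      exact_mod_cast h4
  · rintro ⟨w, ⟨h1, h2⟩, rfl⟩
    refine ⟨(mem_grossLattice _).mpr w.2, ?_, ?_⟩
    · have h4 := qO_cast hab hO w
      rw [h2] at h4
      have h5 : nr (w : ℍ[ℚ,a,b]) = d := by rw [← h4]; simp
      exact h5
    · intro m v hv e
      rw [mem_grossLattice] at hv
      exact Int.isUnit_iff.mp (h1 m ⟨v, hv⟩ (Subtype.ext e))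

open Pool.Agent.Lib.MP_1c9ad1_nt in
/-- auxiliary one sided statement -/
theorem exists_lt {p : ℕ} (hp : p.Prime) (hB : RamifiedExactlyAt p a b)
    {O O' : Subring ℍ[ℚ,a,b]} (hO : IsMaximalOrder O) (hO' : IsMaximalOrder O')
    (hne : ¬ Conjugate O O') :
    ∃ n : ℕ, 0 < n ∧ n ≤ 2 * p ∧ primReps O n < primReps O' n := by
  have : Fact p.Prime := ⟨hp⟩
  have hneg := neg_of_real hB.1
  have hab : a * b ≠ 0 := mul_ne_zero hneg.1.ne hneg.2.ne
  have hdiv : IsDiv ℚ_[p] (a : ℚ_[p]) (b : ℚ_[p]) := (hB.2 p).mpr rfl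
  have hram : ∀ (l : ℕ) [Fact l.Prime], IsDiv ℚ_[l] (a : ℚ_[l]) (b : ℚ_[l]) → l = p :=
    fun l _ h => (hB.2 l).mp h
  have hm : IsMaxOrd O := ⟨⟨hO.1.1, hO.1.2⟩, fun O'' h1 h2 => hO.2 O'' ⟨h1.fin, h1.span⟩ h2⟩
  have hm' : IsMaxOrd O' :=
    ⟨⟨hO'.1.1, hO'.1.2⟩, fun O'' h1 h2 => hO'.2 O'' ⟨h1.fin, h1.span⟩ h2⟩
  by_contra hcon
  push Not at hcon
  apply hne
  refine conj_of_dom hneg hm hm' p hdiv hram ?_
  intro n h1 h2
  lift n to ℕ using by omega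
  have h3 := hcon n (by exact_mod_cast h1) (by exact_mod_cast h2)
  rw [primReps_eq hab hm.ord, primReps_eq hab hm'.ord] at h3
  exact h3

theorem Conjugate.symm {O O' : Subring ℍ[ℚ,a,b]} (h : Conjugate O O') : Conjugate O' O := by
  obtain ⟨c, hc⟩ := h
  refine ⟨c⁻¹, ?_⟩
  intro x
  rw [hc]
  have : (c : ℍ[ℚ,a,b]) * (((c⁻¹ : (ℍ[ℚ,a,b])ˣ) : ℍ[ℚ,a,b]) * x
      * (((c⁻¹)⁻¹ : (ℍ[ℚ,a,b])ˣ) : ℍ[ℚ,a,b])) * ((c⁻¹ : (ℍ[ℚ,a,b])ˣ) : ℍ[ℚ,a,b]) = x := by
    rw [inv_inv, ← mul_assoc, ← mul_assoc, Units.mul_inv, one_mul, mul_assoc, Units.mul_inv,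
      mul_one]
  rw [this]

/-- For each prime `p`, each quaternion algebra over `ℚ` ramified exactly at `p` and infinity,
and all non-conjugate maximal orders `O`, `O'`, the number `n₀ (O, O')` exists and is at most
`2 p + 1`. -/
theorem result (p : ℕ) (hp : p.Prime) (a b : ℚ) (hB : RamifiedExactlyAt p a b)
    (O O' : Subring ℍ[ℚ,a,b]) (hO : IsMaximalOrder O) (hO' : IsMaximalOrder O')
    (hne : ¬ Conjugate O O') :
    ∃ n₀ : ℕ, IsLeast (signSet O O') n₀ ∧ n₀ ≤ 2 * p + 1 := by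
  obtain ⟨n₁, h1, h2, h3⟩ := exists_lt hp hB hO hO' hne
  obtain ⟨n₂, h4, h5, h6⟩ := exists_lt hp hB hO' hO (fun h => hne h.symm)
  have hmem : 2 * p + 1 ∈ signSet O O' :=
    ⟨n₁, n₂, h1, by omega, h4, by omega, h3.le, h6⟩
  exact ⟨sInf (signSet O O'), ⟨Nat.sInf_mem ⟨_, hmem⟩, fun n hn => Nat.sInf_le hn⟩,
    Nat.sInf_le hmem⟩

end Pool.Agent.Results.MP_1c9ad1_nt.FirstSignChange
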